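import Pool.Agent.L5helper98.CQ.Stmts

/-!
Project CQ (MP_b09bc5_pr): the final assembly of the lower bound.
-/

set_option autoImplicit false

namespace Pool.Agent.L5helper88.CQ

open Finset Filter
open scoped Classical
open Pool.Agent.L5helper98.CQ

theorem ev_pow (k : ℕ) (C b : ℝ) (hb : 0 < b) :
    ∀ᶠ x : ℝ in atTop, C * x ^ k ≤ Real.exp (b * x) := by
  have h := (isLittleO_pow_exp_pos_mul_atTop k hb).bound (c := 1 / (|C| + 1)) (by positivity)
  filter_upwards [h, eventually_ge_atTop 0] with x hx hx0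
  rw [Real.norm_of_nonneg (by positivity), Real.norm_of_nonneg (Real.exp_pos _).le] at hx
  have h1 : C * x ^ k ≤ (|C| + 1) * x ^ k := by
    refine mul_le_mul_of_nonneg_right ?_ (by positivity)
    linarith [le_abs_self C]
  refine h1.trans ?_
  have h2 : (0 : ℝ) < |C| + 1 := by positivity
  calc (|C| + 1) * x ^ k ≤ (|C| + 1) * (1 / (|C| + 1) * Real.exp (b * x)) :=
        mul_le_mul_of_nonneg_left hx h2.le
    _ = Real.exp (b * x) := by field_simp

theorem rng_log {ε : ℝ} {n : ℕ} {p : ℝ} (hn : 2 ≤ n) (h : rng ε n p) :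
    0 < p ∧ ε * Real.log n ≤ Real.log (1 / p) ∧ Real.log (1 / p) ≤ (1 / 3 - ε) * Real.log n := by
  have hn0 : (0 : ℝ) < n := by exact_mod_cast (by omega : 0 < n)
  have hp : 0 < p := lt_of_lt_of_le (Real.rpow_pos_of_pos hn0 _) h.1
  refine ⟨hp, ?_, ?_⟩
  · have h1 := Real.log_le_log hp h.2
    rw [Real.log_rpow hn0] at h1
    rw [one_div, Real.log_inv]
    linarith
  · have h1 := Real.log_le_log (Real.rpow_pos_of_pos hn0 _) h.1
    rw [Real.log_rpow hn0] at h1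
    rw [one_div, Real.log_inv]
    linarith

theorem one_sub_ge {p : ℝ} (h0 : 0 ≤ p) (h1 : p ≤ 1 / 2) :
    Real.exp (-(p * (1 + 2 * p))) ≤ 1 - p := by
  have h2 : 0 < 1 - p := by linarith
  have h3 := Real.one_sub_inv_le_log_of_pos h2
  have h4 : -(p * (1 + 2 * p)) ≤ 1 - (1 - p)⁻¹ := by
    rw [le_sub_iff_add_le, ← le_sub_iff_add_le', inv_eq_one_div, div_le_iff₀ h2]
    nlinarith [mul_nonneg h0 h0, mul_nonneg (mul_nonneg h0 h0) (by linarith : (0 : ℝ) ≤ 1 / 2 - p),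
      mul_nonneg h0 (by linarith : (0 : ℝ) ≤ 1 / 2 - p)]
  calc Real.exp (-(p * (1 + 2 * p))) ≤ Real.exp (Real.log (1 - p)) :=
        Real.exp_le_exp.2 (h4.trans h3)
    _ = 1 - p := Real.exp_log h2

theorem pow_div_factorial_le (x : ℝ) (hx : 0 ≤ x) (k : ℕ) :
    x ^ k / (k.factorial : ℝ) ≤ Real.exp (Real.exp 1 * x - k) := by
  have h1 := Real.pow_div_factorial_le_exp (Real.exp 1 * x) (by positivity) k
  have h2 : (Real.exp 1 * x) ^ k / (k.factorial : ℝ) =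
      Real.exp k * (x ^ k / (k.factorial : ℝ)) := by
    rw [mul_pow, ← Real.exp_nat_mul, mul_one]
    ring
  rw [h2] at h1
  rw [Real.exp_sub, le_div_iff₀ (Real.exp_pos _)]
  linarith

/-- the conditions on `log n` -/
def Large (ε δ κ : ℝ) (r : ℕ) (x : ℝ) : Prop :=
  3 * (r : ℝ) + 1 ≤ x ∧ 4 / (δ * ε) * x ^ 0 ≤ Real.exp (ε * x) ∧ 2 * x ^ 0 ≤ Real.exp (ε * x) ∧
    16 * x ^ 1 ≤ Real.exp (23 * (ε * δ) / 64 * x) ∧ 16 * x ^ 2 ≤ Real.exp (ε * δ / 2 * x) ∧
    4 * x ^ 2 ≤ Real.exp (ε * x) ∧ 2 / κ * x ^ 2 ≤ Real.exp (ε * x) ∧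
    2 * x ^ 1 ≤ Real.exp (2 / 3 * x) ∧ 3 / δ * x ^ 0 ≤ Real.exp (1 * x)

theorem large (ε δ κ : ℝ) (r : ℕ) (hε : 0 < ε) (hδ : 0 < δ) :
    ∀ᶠ x : ℝ in atTop, Large ε δ κ r x := by
  have h1 : 0 < 23 * (ε * δ) / 64 := by positivity
  have h2 : 0 < ε * δ / 2 := by positivity
  filter_upwards [eventually_ge_atTop (3 * (r : ℝ) + 1), ev_pow 0 (4 / (δ * ε)) ε hε,
    ev_pow 0 2 ε hε, ev_pow 1 16 _ h1, ev_pow 2 16 _ h2, ev_pow 2 4 ε hε, ev_pow 2 (2 / κ) ε hε,
    ev_pow 1 2 (2 / 3) (by norm_num), ev_pow 0 (3 / δ) 1 one_pos] with x a b c d e f g h i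
  exact ⟨a, b, c, d, e, f, g, h, i⟩

theorem sz_eq (n r : ℕ) (p ζ : ℝ) (hn : 0 < n) (hp : 0 < p) :
    p ^ (-(r : ℝ) / 2) * Real.exp (n * p ^ r / ((r : ℝ) - 1)) * (n : ℝ) ^ ζ =
      Real.exp ((r : ℝ) / 2 * Real.log (1 / p) + n * p ^ r / ((r : ℝ) - 1) +
        ζ * Real.log n) := by
  have hn0 : (0 : ℝ) < n := by exact_mod_cast hn
  rw [Real.rpow_def_of_pos hp, Real.rpow_def_of_pos hn0, Real.exp_add, Real.exp_add, one_div,
    Real.log_inv, mul_comm (Real.log n) ζ,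
    show Real.log p * (-(r : ℝ) / 2) = (r : ℝ) / 2 * -Real.log p by ring]

set_option maxHeartbeats 1000000 in
theorem top_fixed (hCN : TaskCN) (hCh : TaskChern) (hDet : TaskLowDet) (hLowR : TaskLowR)
    (ε δ : ℝ) (hε : 0 < ε) (hδ : 0 < δ) (hδ1 : δ < 1) (r : ℕ) (hr : 3 ≤ r) :
    ∃ n0 : ℕ, ∀ n : ℕ, n0 ≤ n → ∀ p : ℝ, rng ε n p →
      n * p ^ r ≤ ((r : ℝ) - 1) / 2 * Real.log (1 / p) - ε * δ / 16 * Real.log n →
      (r : ℝ) / 2 * Real.log (1 / p) + n * p ^ r / ((r : ℝ) - 1) ≤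
        ls n p + 2 * (ε * δ / 16) * Real.log n →
      ε * Real.log n ≤ Real.log (n * p) - ls n p →
      Real.log (1 / p) ≤ ls n p →
      Pb p (fun ω : Om n => colorable ω ⌊(1 - δ) * fv n p⌋₊) ≤ δ := by
  obtain ⟨κ, hκ, n1, H1⟩ := hLowR ε (ε * δ / 16) (ε * δ / 64) r hε (by positivity)
    (by positivity) (by linarith) hr
  obtain ⟨N, hN⟩ := eventually_atTop.1
    ((Real.tendsto_log_atTop.comp tendsto_natCast_atTop_atTop).eventually (large ε δ κ r hε hδ))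
  refine ⟨max n1 (max N 2), fun n hn p hrng hA hB hD hL => ?_⟩
  have hn1 : n1 ≤ n := (le_max_left _ _).trans hn
  have hn2 : 2 ≤ n := ((le_max_right _ _).trans (le_max_right _ _)).trans hn
  have hnN : N ≤ n := ((le_max_left _ _).trans (le_max_right _ _)).trans hn
  have hlarge := hN n hnN
  change Large ε δ κ r (Real.log n) at hlarge
  obtain ⟨l1, l2, l3, l4, l5, l6, l7, l8, l9⟩ := hlarge
  obtain ⟨hp0, hp1, hp2⟩ := rng_log hn2 hrng
  have hn0 : (0 : ℝ) < n := by exact_mod_cast (by omega : 0 < n)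
  have hexpn : Real.exp (Real.log n) = n := Real.exp_log hn0
  have hlnp : Real.log (n * p) = Real.log n - Real.log (1 / p) := by
    rw [one_div, Real.log_inv, Real.log_mul hn0.ne' hp0.ne']
    ring
  have hexpL : p = Real.exp (-Real.log (1 / p)) := by
    rw [one_div, Real.log_inv, neg_neg, Real.exp_log hp0]
  have H2 := H1 n hn1 p hrng hA
  have hszeq := sz_eq n r p (ε * δ / 64) (by omega) hp0
  have hfv : fv n p = (Real.log (n * p) - ls n p) / p := rfl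
  have hfactor := H1
  clear H1 hfactor hN
  set ℓ := Real.log n with hℓ
  set Lp := Real.log (1 / p) with hLp
  have hr' : (3 : ℝ) ≤ r := by exact_mod_cast hr
  have hℓ1 : 1 ≤ ℓ := by linarith
  have hLp0 : 0 ≤ Lp := le_trans (by positivity) hp1
  rw [pow_zero, mul_one] at l2 l3 l9
  rw [pow_one] at l4 l8
  rw [one_mul] at l9
  have hls0 : 0 ≤ ls n p := hLp0.trans hL
  -- bounds for `p`
  have hpe : p ≤ Real.exp (-(ε * ℓ)) := by
    rw [hexpL]
    exact Real.exp_le_exp.2 (by linarith)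
  have hp3 : p ≤ 1 / 2 := by
    refine hpe.trans ?_
    rw [Real.exp_neg, inv_eq_one_div]
    exact one_div_le_one_div_of_le (by norm_num) l3
  have hp4 : p ≤ δ * ε / 4 := by
    refine hpe.trans ?_
    rw [Real.exp_neg]
    have h1 : (4 / (δ * ε))⁻¹ = δ * ε / 4 := by
      rw [inv_div]
    rw [← h1]
    exact inv_anti₀ (by positivity) l2
  have hp5 : p ≤ 1 := by linarith
  -- bounds for `t`
  have hfv0 : 0 ≤ (1 - δ) * fv n p := by
    rw [hfv]
    have : 0 ≤ Real.log (n * p) - ls n p := le_trans (by positivity) hD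
    have h2 : 0 ≤ 1 - δ := by linarith
    positivity
  set t := ⌊(1 - δ) * fv n p⌋₊ with ht
  have ht1 : (t : ℝ) ≤ (1 - δ) * fv n p := Nat.floor_le hfv0
  set D := Real.log (n * p) - ls n p with hDdef
  have hD1 : D ≤ ℓ := by
    rw [hDdef, hlnp]
    linarith
  have hD0 : 0 ≤ D := le_trans (by positivity) hD
  have ht2 : (t : ℝ) * p ≤ (1 - δ) * D := by
    rw [hfv] at ht1
    calc (t : ℝ) * p ≤ (1 - δ) * (D / p) * p := mul_le_mul_of_nonneg_right ht1 hp0.le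
      _ = (1 - δ) * D := by field_simp
  have ht3 : (t : ℝ) * p ≤ ℓ := by
    have h1 : 0 ≤ δ * D := mul_nonneg hδ.le hD0
    linarith
  have ht4 : (t : ℝ) ≤ ℓ * Real.exp Lp := by
    have h1 : Real.exp Lp * p = 1 := by
      rw [hexpL, ← Real.exp_add]
      simp
    calc (t : ℝ) = t * p * Real.exp Lp := by rw [mul_assoc, mul_comm p, h1, mul_one]
      _ ≤ ℓ * Real.exp Lp := mul_le_mul_of_nonneg_right ht3 (Real.exp_pos _).le
  -- the number of vertices that are adjacent to no vertex of a `t`-set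
  have hy1 : Real.exp (Lp + ls n p + ε * δ / 2 * ℓ) ≤ n * (1 - p) ^ t := by
    have h1 : Real.exp (-(t * p * (1 + 2 * p))) ≤ (1 - p) ^ t := by
      have h2 := pow_le_pow_left₀ (Real.exp_pos _).le (one_sub_ge hp0.le hp3) t
      rw [← Real.exp_nat_mul] at h2
      refine le_trans (le_of_eq ?_) h2
      congr 1
      ring
    calc Real.exp (Lp + ls n p + ε * δ / 2 * ℓ) ≤
          Real.exp (ℓ + -(t * p * (1 + 2 * p))) := by
          refine Real.exp_le_exp.2 ?_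
          have h3 : (t : ℝ) * p * (1 + 2 * p) ≤ (1 - δ) * D + ℓ * (2 * p) := by
            have h7 := mul_le_mul_of_nonneg_right ht3 (by positivity : (0 : ℝ) ≤ 2 * p)
            calc (t : ℝ) * p * (1 + 2 * p) = t * p + t * p * (2 * p) := by ring
              _ ≤ (1 - δ) * D + ℓ * (2 * p) := add_le_add ht2 h7
          have h4 : ℓ * (2 * p) ≤ ℓ * (δ * ε / 2) :=
            mul_le_mul_of_nonneg_left (by linarith) (by linarith)
          have h5 : δ * (ε * ℓ) ≤ δ * D := mul_le_mul_of_nonneg_left hD hδ.le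
          have h6 : D = ℓ - Lp - ls n p := by rw [hDdef, hlnp]
          have h8 : (1 - δ) * D = D - δ * D := by ring
          have h9 : ℓ * (δ * ε / 2) = δ * (ε * ℓ) - ε * δ / 2 * ℓ := by ring
          linarith
      _ = n * Real.exp (-(t * p * (1 + 2 * p))) := by rw [Real.exp_add, hexpn]
      _ ≤ n * (1 - p) ^ t := mul_le_mul_of_nonneg_left h1 hn0.le
  -- the size `s0`
  set s0 := sz n r p (ε * δ / 64) with hs0
  set X := (r : ℝ) / 2 * Lp + n * p ^ r / ((r : ℝ) - 1) + ε * δ / 64 * ℓ with hX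
  have hs0' : s0 = ⌈Real.exp X⌉₊ := by
    rw [hs0]
    unfold sz
    rw [hszeq]
  have hfr : 0 ≤ n * p ^ r / ((r : ℝ) - 1) := by
    have : (0 : ℝ) ≤ (r : ℝ) - 1 := by linarith
    positivity
  have hX0 : ε * ℓ ≤ X := by
    have h1 : 1 * Lp ≤ (r : ℝ) / 2 * Lp := mul_le_mul_of_nonneg_right (by linarith) hLp0
    have h2 : 0 ≤ ε * δ / 64 * ℓ := by positivity
    linarith
  have hX1 : X ≤ ls n p + 9 * (ε * δ) / 64 * ℓ := by
    rw [hX]
    linarith
  have hs1 : Real.exp (ε * ℓ) ≤ s0 := by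
    rw [hs0']
    exact (Real.exp_le_exp.2 hX0).trans (Nat.le_ceil _)
  have hs2 : (s0 : ℝ) ≤ 2 * Real.exp (ls n p + 9 * (ε * δ) / 64 * ℓ) := by
    rw [hs0']
    have h1 := (Nat.ceil_lt_add_one (Real.exp_pos X).le).le
    have h2 : 1 ≤ Real.exp X := Real.one_le_exp (le_trans (by positivity) hX0)
    have h3 := Real.exp_le_exp.2 hX1
    linarith
  have hs00 : 1 ≤ s0 := by
    have h1 : (0 : ℝ) < s0 := lt_of_lt_of_le (Real.exp_pos _) hs1
    exact_mod_cast h1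
  -- the number `k`
  obtain ⟨k, hk⟩ : ∃ k : ℕ, k = ⌈ℓ ^ 2⌉₊ := ⟨_, rfl⟩
  have hℓ0 : 0 ≤ ℓ := by linarith
  have hℓ2 : 1 ≤ ℓ ^ 2 := one_le_pow₀ hℓ1
  have hk1 : ℓ ^ 2 ≤ k := by rw [hk]; exact Nat.le_ceil _
  have hk2 : (k : ℝ) ≤ 2 * ℓ ^ 2 := by
    have := (Nat.ceil_lt_add_one (by positivity : 0 ≤ ℓ ^ 2)).le
    rw [hk]
    linarith
  have hk3 : 2 * k ≤ s0 := by
    have : (2 : ℝ) * k ≤ s0 := by linarith
    exact_mod_cast this
  have hk4 : (k : ℝ) ≤ κ * s0 := by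
    have h1 : 2 / κ * ℓ ^ 2 ≤ s0 := l7.trans hs1
    rw [div_mul_eq_mul_div, div_le_iff₀ hκ] at h1
    linarith
  -- the bad events
  set y := n * (1 - p) ^ t / 8 with hy
  have hy2 : (t : ℝ) * s0 ≤ y := by
    have h1 : (t : ℝ) * s0 ≤ ℓ * Real.exp Lp * (2 * Real.exp (ls n p + 9 * (ε * δ) / 64 * ℓ)) :=
      mul_le_mul ht4 hs2 (by positivity) (by positivity)
    have h2 : ℓ * Real.exp Lp * (2 * Real.exp (ls n p + 9 * (ε * δ) / 64 * ℓ)) =
        16 * ℓ * Real.exp (Lp + ls n p + 9 * (ε * δ) / 64 * ℓ) / 8 := by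
      rw [show Lp + ls n p + 9 * (ε * δ) / 64 * ℓ = Lp + (ls n p + 9 * (ε * δ) / 64 * ℓ) by ring,
        Real.exp_add Lp]
      ring
    have h3 : 16 * ℓ * Real.exp (Lp + ls n p + 9 * (ε * δ) / 64 * ℓ) ≤
        Real.exp (Lp + ls n p + ε * δ / 2 * ℓ) := by
      calc 16 * ℓ * Real.exp (Lp + ls n p + 9 * (ε * δ) / 64 * ℓ) ≤
            Real.exp (23 * (ε * δ) / 64 * ℓ) * Real.exp (Lp + ls n p + 9 * (ε * δ) / 64 * ℓ) :=
            mul_le_mul_of_nonneg_right l4 (Real.exp_pos _).le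
        _ = Real.exp (Lp + ls n p + ε * δ / 2 * ℓ) := by
            rw [← Real.exp_add]
            congr 1
            ring
    rw [hy]
    linarith
  have hy3 : ℓ ^ 2 * Real.exp Lp + ℓ ≤ y := by
    have h1 : 1 ≤ Real.exp Lp := Real.one_le_exp hLp0
    have h2 : Real.exp Lp * (16 * ℓ ^ 2) ≤ Real.exp (Lp + ls n p + ε * δ / 2 * ℓ) := by
      calc Real.exp Lp * (16 * ℓ ^ 2) ≤ Real.exp Lp * Real.exp (ε * δ / 2 * ℓ) :=
            mul_le_mul_of_nonneg_left l5 (Real.exp_pos _).le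
        _ = Real.exp (Lp + ε * δ / 2 * ℓ) := by rw [← Real.exp_add]
        _ ≤ Real.exp (Lp + ls n p + ε * δ / 2 * ℓ) := Real.exp_le_exp.2 (by linarith)
    have h3 : ℓ ≤ ℓ ^ 2 * Real.exp Lp := by
      calc ℓ = ℓ * 1 * 1 := by ring
        _ ≤ ℓ * ℓ * Real.exp Lp :=
            mul_le_mul (mul_le_mul_of_nonneg_left hℓ1 hℓ0) h1 zero_le_one (by positivity)
        _ = ℓ ^ 2 * Real.exp Lp := by ring
    rw [hy]
    linarith
  have ht5 : (t : ℝ) ≤ n / 2 := by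
    have h1 : Real.exp Lp ≤ Real.exp (1 / 3 * ℓ) := by
      refine Real.exp_le_exp.2 ?_
      have h0 : 0 ≤ ε * ℓ := mul_nonneg hε.le hℓ0
      have h00 : (1 / 3 - ε) * ℓ = 1 / 3 * ℓ - ε * ℓ := by ring
      linarith
    have h2 : 2 * ℓ * Real.exp (1 / 3 * ℓ) ≤ n := by
      calc 2 * ℓ * Real.exp (1 / 3 * ℓ) ≤ Real.exp (2 / 3 * ℓ) * Real.exp (1 / 3 * ℓ) :=
            mul_le_mul_of_nonneg_right l8 (Real.exp_pos _).le
        _ = Real.exp ℓ := by
            rw [← Real.exp_add]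
            congr 1
            ring
        _ = n := hexpn
    have h3 : ℓ * Real.exp Lp ≤ ℓ * Real.exp (1 / 3 * ℓ) :=
      mul_le_mul_of_nonneg_left h1 (by linarith)
    linarith
  have htn : t ≤ n := by
    have : (t : ℝ) ≤ n := by linarith
    exact_mod_cast this
  have hninv : Real.exp (-ℓ) = 1 / n := by
    rw [Real.exp_neg, hexpn, one_div]
  have P3 := hCh n t p y hp0.le hp5 htn
  have P3' : Pb p (fun ω : Om n => ∃ v : Fin t → Fin n,
        ((univ.filter (fun u => ∀ i, ¬ adj ω (v i) u)).card : ℝ) ≤ y) ≤ 1 / n := by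
    refine P3.trans ?_
    have h1 : (n : ℝ) ^ t = Real.exp (t * ℓ) := by
      rw [Real.exp_nat_mul, hexpn]
    rw [h1, ← Real.exp_add, ← hninv]
    refine Real.exp_le_exp.2 ?_
    have h2 : 0 ≤ (1 - p) ^ t := by
      have : 0 ≤ 1 - p := by linarith
      positivity
    have h3 : 2 * y ≤ ((n : ℝ) - t) * (1 - p) ^ t / 2 := by
      rw [hy]
      have h5 := mul_le_mul_of_nonneg_right (by linarith : (n : ℝ) / 2 ≤ n - t) h2
      linarith
    have h4 : (t : ℝ) * ℓ ≤ ℓ ^ 2 * Real.exp Lp := by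
      calc (t : ℝ) * ℓ ≤ ℓ * Real.exp Lp * ℓ := mul_le_mul_of_nonneg_right ht4 hℓ0
        _ = ℓ ^ 2 * Real.exp Lp := by ring
    linarith
  have P1 := hCN n r k p hp0.le hp5
  have hnp0 : 0 ≤ (n : ℝ) * p ^ r := by positivity
  have P1' : Pb p (fun ω : Om n => ∃ R : Finset (Fin n), R.card = r ∧ k ≤ (cn ω R).card) ≤
      1 / n := by
    refine P1.trans ?_
    have h1 : (n : ℝ) ^ r = Real.exp (r * ℓ) := by
      rw [Real.exp_nat_mul, hexpn]
    have h2 := pow_div_factorial_le ((n : ℝ) * p ^ r) hnp0 k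
    calc (n : ℝ) ^ r * (((n : ℝ) * p ^ r) ^ k / (k.factorial : ℝ)) ≤
          Real.exp (r * ℓ) * Real.exp (Real.exp 1 * ((n : ℝ) * p ^ r) - k) := by
          rw [h1]
          exact mul_le_mul_of_nonneg_left h2 (Real.exp_pos _).le
      _ = Real.exp (r * ℓ + (Real.exp 1 * ((n : ℝ) * p ^ r) - k)) := by rw [← Real.exp_add]
      _ ≤ Real.exp (-ℓ) := by
          refine Real.exp_le_exp.2 ?_
          have h3 : Real.exp 1 ≤ 3 := Real.exp_one_lt_three.le
          have h4 : (n : ℝ) * p ^ r ≤ r * (1 / 3 * ℓ) := by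
            have h5 : 0 ≤ ε * δ / 16 * ℓ := by positivity
            have h6 : ((r : ℝ) - 1) / 2 * Lp ≤ r / 1 * (1 / 3 * ℓ) := by
              refine mul_le_mul (by linarith) ?_ hLp0 (by positivity)
              have h0 : 0 ≤ ε * ℓ := mul_nonneg hε.le hℓ0
              have h00 : (1 / 3 - ε) * ℓ = 1 / 3 * ℓ - ε * ℓ := by ring
              linarith
            linarith
          have h7 : Real.exp 1 * ((n : ℝ) * p ^ r) ≤ 3 * (r * (1 / 3 * ℓ)) :=
            mul_le_mul h3 h4 hnp0 (by norm_num)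
          have h8 : (3 * (r : ℝ) + 1) * ℓ ≤ ℓ * ℓ := mul_le_mul_of_nonneg_right l1 hℓ0
          have h9 : ℓ * ℓ = ℓ ^ 2 := by ring
          have h10 : (3 * (r : ℝ) + 1) * ℓ = 3 * (r * ℓ) + ℓ := by ring
          have h11 : 3 * ((r : ℝ) * (1 / 3 * ℓ)) = r * ℓ := by ring
          have h12 : 0 ≤ (r : ℝ) * ℓ := by positivity
          linarith
      _ = 1 / n := hninv
  -- outside the bad events there is no colouring
  have hmain : Pb p (fun ω : Om n => colorable ω t) ≤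
      Pb p (fun ω : Om n => (∃ R : Finset (Fin n), R.card = r ∧ k ≤ (cn ω R).card) ∨
        ((∃ S : Finset (Fin n), sz n r p (ε * δ / 64) ≤ S.card ∧
          S.card ≤ r * sz n r p (ε * δ / 64) ∧ BadS r κ S ω) ∨
        ∃ v : Fin t → Fin n,
          ((univ.filter (fun u => ∀ i, ¬ adj ω (v i) u)).card : ℝ) ≤ y)) := by
    refine Pb_mono hp0.le hp5 fun ω hω => ?_
    by_contra hcon
    push Not at hcon
    obtain ⟨c1, c2, c3⟩ := hcon
    refine hDet n r s0 t ω (by omega) hs00 ?_ ?_ ?_ hω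
    · intro R hR
      have := c1 R hR
      omega
    · intro S hS1 hS2 hS3
      have h1 := c2 S hS1 hS2
      by_contra h2
      apply h1
      refine ⟨?_, hS3, h2⟩
      intro R hR
      have h3 := c1 R hR
      have h4 : ((cn ω R).card : ℝ) ≤ k := by exact_mod_cast h3.le
      have h5 : κ * s0 ≤ κ * S.card :=
        mul_le_mul_of_nonneg_left (by exact_mod_cast hS1) hκ.le
      linarith
    · intro v
      have h1 := c3 v
      have h2 : ((t * s0 : ℕ) : ℝ) < ((univ.filter (fun u => ∀ i, ¬ adj ω (v i) u)).card : ℝ) := by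
        push_cast
        linarith
      exact_mod_cast h2
  refine hmain.trans ((Pb_or hp0.le hp5 _ _).trans ?_)
  have h5 := Pb_or hp0.le hp5 (fun ω : Om n => ∃ S : Finset (Fin n),
      sz n r p (ε * δ / 64) ≤ S.card ∧ S.card ≤ r * sz n r p (ε * δ / 64) ∧ BadS r κ S ω)
    (fun ω : Om n => ∃ v : Fin t → Fin n,
      ((univ.filter (fun u => ∀ i, ¬ adj ω (v i) u)).card : ℝ) ≤ y)
  have h6 : 3 / (n : ℝ) ≤ δ := by
    rw [hexpn, div_le_iff₀ hδ] at l9
    rw [div_le_iff₀ hn0]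
    linarith
  have h7 : 3 / (n : ℝ) = 1 / n + 1 / n + 1 / n := by ring
  linarith

/-- **Task TopLow.** -/
theorem taskTopLow : TaskTopLow := by
  intro hCN hCh hDet hChoose hLowR ε δ hε hδ hδ1
  obtain ⟨nc, Hc⟩ := hChoose ε (ε * δ / 16) hε (by positivity) (by nlinarith)
  have H : ∀ r : ℕ, ∃ n0 : ℕ, 3 ≤ r → ∀ n : ℕ, n0 ≤ n → ∀ p : ℝ, rng ε n p →
      n * p ^ r ≤ ((r : ℝ) - 1) / 2 * Real.log (1 / p) - ε * δ / 16 * Real.log n →
      (r : ℝ) / 2 * Real.log (1 / p) + n * p ^ r / ((r : ℝ) - 1) ≤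
        ls n p + 2 * (ε * δ / 16) * Real.log n →
      ε * Real.log n ≤ Real.log (n * p) - ls n p →
      Real.log (1 / p) ≤ ls n p →
      Pb p (fun ω : Om n => colorable ω ⌊(1 - δ) * fv n p⌋₊) ≤ δ := by
    intro r
    by_cases hr : 3 ≤ r
    · obtain ⟨n0, h⟩ := top_fixed hCN hCh hDet hLowR ε δ hε hδ hδ1 r hr
      exact ⟨n0, fun _ => h⟩
    · exact ⟨0, fun h => absurd h hr⟩
  choose f hf using H
  refine ⟨max nc ((range (⌊2 / ε + 4⌋₊ + 1)).sup f), fun n hn p hp => ?_⟩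
  obtain ⟨⟨r, h3, h4, h5, h6⟩, h7, h8, -⟩ := Hc n ((le_max_left _ _).trans hn) p hp
  have hr : r ∈ range (⌊2 / ε + 4⌋₊ + 1) := by
    rw [mem_range, Nat.lt_succ_iff]
    exact Nat.le_floor h4
  have hfn : f r ≤ n := ((le_sup hr).trans (le_max_right _ _)).trans hn
  exact hf r h3 n hfn p hp h5 h6 h7 h8

end Pool.Agent.L5helper88.CQ
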